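import Pool.Agent.Q209.BE.Iso

/-!
# Finitely many bi-embeddability classes and continuum many countable models

For every `n ≥ 2` (in particular for `n = 3`) there is a complete theory in a countable language,
all of whose models are infinite, with exactly `n` classes of countable models under mutual
elementary embeddability and with continuum many countable models up to isomorphism.
-/

namespace Pool.Agent.Results.MP_683aef_lc.EveryFiniteValue

open FirstOrder FirstOrder.Language Pool.Agent.Q209.BE

/-- The models of `T` with underlying set `ℕ`.  Every countably infinite model of `T` is isomorphic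
to one of them. -/
def CModel (L : FirstOrder.Language.{0, 0}) (T : L.Theory) : Type :=
  {S : L.Structure ℕ // @Theory.Model L ℕ S T}

variable {L : FirstOrder.Language.{0, 0}} {T : L.Theory}

/-- `A` elementarily embeds into `B`. -/
def Emb (A B : CModel L T) : Prop := Nonempty (@ElementaryEmbedding L ℕ ℕ A.1 B.1)

/-- `A` and `B` are isomorphic. -/
def Iso (A B : CModel L T) : Prop := Nonempty (@Language.Equiv L ℕ ℕ A.1 B.1)

theorem Emb.refl (A : CModel L T) : Emb A A :=
  ⟨@ElementaryEmbedding.refl L ℕ A.1⟩

theorem Emb.trans {A B C : CModel L T} (h : Emb A B) (h' : Emb B C) : Emb A C := by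
  obtain ⟨f⟩ := h
  obtain ⟨g⟩ := h'
  exact ⟨@ElementaryEmbedding.comp L ℕ ℕ ℕ A.1 B.1 C.1 g f⟩

/-- Similarity: mutual elementary embeddability. -/
def simSetoid (L : FirstOrder.Language.{0, 0}) (T : L.Theory) : Setoid (CModel L T) where
  r A B := Emb A B ∧ Emb B A
  iseqv := ⟨fun A => ⟨Emb.refl A, Emb.refl A⟩, fun h => ⟨h.2, h.1⟩,
    fun h h' => ⟨h.1.trans h'.1, h'.2.trans h.2⟩⟩

/-- Isomorphism. -/
def isoSetoid (L : FirstOrder.Language.{0, 0}) (T : L.Theory) : Setoid (CModel L T) where
  r := Iso
  iseqv := ⟨fun A => ⟨@Language.Equiv.refl L ℕ A.1⟩, fun {A B} h => by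
      obtain ⟨f⟩ := h
      exact ⟨@Language.Equiv.symm L ℕ ℕ A.1 B.1 f⟩, fun {A B C} h h' => by
      obtain ⟨f⟩ := h
      obtain ⟨g⟩ := h'
      exact ⟨@Language.Equiv.comp L ℕ ℕ A.1 B.1 ℕ C.1 g f⟩⟩

/-- `B_T(ω)`: the number of similarity classes of countable models of `T`. -/
def simCount (L : FirstOrder.Language.{0, 0}) (T : L.Theory) : Cardinal :=
  Cardinal.mk (Quotient (simSetoid L T))

/-- `I(T, ω)`: the number of isomorphism classes of countable models of `T`. -/
def isoCount (L : FirstOrder.Language.{0, 0}) (T : L.Theory) : Cardinal :=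
  Cardinal.mk (Quotient (isoSetoid L T))

theorem simCount_Th (m : ℕ) : simCount (Lg m) (Th m) = ((m + 2 : ℕ) : Cardinal) := by
  let t : CModel (Lg m) (Th m) → Fin (m + 2) := fun A => MN.t (m := m) A
  let q : Quotient (simSetoid (Lg m) (Th m)) → Fin (m + 2) :=
    Quotient.lift t (fun A B h => (sim_iff (m := m) A B).1 h)
  have hq : Function.Bijective q := by
    constructor
    · intro a b
      induction a using Quotient.inductionOn with
      | h A =>
        induction b using Quotient.inductionOn with
        | h B =>
          intro hab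
          exact Quotient.sound ((sim_iff (m := m) A B).2 hab)
    · intro k
      obtain ⟨A, hA⟩ := t_surj (m := m) k
      exact ⟨Quotient.mk _ A, hA⟩
  have h1 := Cardinal.mk_congr (Equiv.ofBijective q hq)
  unfold simCount
  rw [h1, Cardinal.mk_fin]

theorem isoCount_Th (m : ℕ) : isoCount (Lg m) (Th m) = Cardinal.continuum := by
  apply le_antisymm
  · exact (Cardinal.mk_quotient_le (s := isoSetoid (Lg m) (Th m))).trans (card_MN (m := m))
  · have hc : ∀ A : Set ℕ, ∃ B : CModel (Lg m) (Th m), DS (MN.dat (m := m) B) = A :=
      exists_code m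
    choose B hB using hc
    have hinj : Function.Injective
        (fun A : Set ℕ => (Quotient.mk (isoSetoid (Lg m) (Th m)) (B A))) := by
      intro A A' h
      have h1 : Iso (B A) (B A') := Quotient.exact h
      have h2 := DS_iso (m := m) (B A) (B A') h1
      rw [hB, hB] at h2
      exact h2
    have h2 := Cardinal.mk_le_of_injective hinj
    rw [Cardinal.mk_set_nat] at h2
    exact h2

/-- **For every natural number `n ≥ 2` there are a countable language `L` and a complete
`L`-theory `T`, all of whose models are infinite, such that the countable models of `T` form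
exactly `n` classes under mutual elementary embeddability, and `T` has exactly continuum many
countable models up to isomorphism.** -/
theorem result (n : ℕ) (hn : 2 ≤ n) :
    ∃ (L : FirstOrder.Language.{0, 0}) (T : L.Theory),
      L.card ≤ Cardinal.aleph0 ∧ T.IsComplete ∧
      (∀ (M : Type) [L.Structure M], M ⊨ T → Infinite M) ∧
      simCount L T = (n : Cardinal) ∧ isoCount L T = Cardinal.continuum := by
  obtain ⟨m, rfl⟩ : ∃ m, n = m + 2 := ⟨n - 2, by omega⟩
  refine ⟨Lg m, Th m, card_Lg, ?_, ?_, simCount_Th m, isoCount_Th m⟩
  · let _ := Ustr m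
    exact completeTheory.isMaximal (L := Lg m) (M := ℕ) |>.isComplete
  · intro M _ hM
    obtain ⟨E, hE⟩ := exists_descr hM
    exact gen_infinite (gen_of_model hM hE)

end Pool.Agent.Results.MP_683aef_lc.EveryFiniteValue
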